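import Mathlib

set_option autoImplicit false

open Finset PowerSeries Filter Topology

namespace Pool.Agent.Results.MP_5217bf_nt.NotPeriodic

/-- `f_{A,n}(t) = ∑ t^{#parts}` over the partitions of `n` all of whose parts lie in `A`. -/
noncomputable def partPoly (A : Set ℕ) (n : ℕ) : Polynomial ℤ := by
  classical
  exact ∑ P : Nat.Partition n, if ∀ i ∈ P.parts, i ∈ A then Polynomial.X ^ (Multiset.card P.parts) else 0

/-- `A = {1, 4, 7, 10, …}`. -/
def A13 : Set ℕ := {a | ∃ m : ℕ, a = 3 * m + 1}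

/-- the number `f_{A,n}(-1)` -/
noncomputable def a (n : ℕ) : ℤ := (partPoly A13 n).eval (-1)

/-- character function -/
noncomputable def ch (i c : ℕ) : ℂ := if i % 3 = 1 then (-1) ^ c else 0

lemma mem_A13 (i : ℕ) : i ∈ A13 ↔ i % 3 = 1 := by
  unfold A13
  constructor
  · rintro ⟨m, rfl⟩; omega
  · intro h; exact ⟨i / 3, by omega⟩

lemma prod_ch (n : ℕ) (P : Nat.Partition n) :
    P.parts.toFinsupp.prod ch =
      if ∀ i ∈ P.parts, i % 3 = 1 then (-1 : ℂ) ^ (Multiset.card P.parts) else 0 := by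
  rw [Finsupp.prod, Multiset.toFinsupp_support]
  split_ifs with h
  · have h1 : ∀ i ∈ P.parts.toFinset, ch i (P.parts.toFinsupp i) = (-1 : ℂ) ^ (P.parts.count i) := by
      intro i hi
      rw [Multiset.mem_toFinset] at hi
      rw [ch, if_pos (h i hi), Multiset.toFinsupp_apply]
    rw [Finset.prod_congr rfl h1, Finset.prod_pow_eq_pow_sum, Multiset.toFinset_sum_count_eq]
  · push Not at h
    obtain ⟨i, hi, hi3⟩ := h
    apply Finset.prod_eq_zero (Multiset.mem_toFinset.mpr hi)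
    rw [ch, if_neg hi3]

lemma a_eq (n : ℕ) : ((a n : ℤ) : ℂ) = coeff n (Nat.Partition.genFun ch) := by
  classical
  rw [Nat.Partition.coeff_genFun, a, partPoly, Polynomial.eval_finsetSum]
  push_cast
  refine Finset.sum_congr rfl fun P _ => ?_
  rw [prod_ch]
  simp only [mem_A13]
  split_ifs with h <;> simp

/-- the local factor -/
noncomputable def E (i : ℕ) : PowerSeries ℂ :=
  PowerSeries.mk fun n => if (i + 1) % 3 = 1 ∧ (i + 1) ∣ n then (-1) ^ (n / (i + 1)) else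
    if n = 0 then 1 else 0

open scoped PowerSeries.WithPiTopology in
lemma factor_eq (i : ℕ) :
    (1 + ∑' j, ch (i + 1) (j + 1) • (X : PowerSeries ℂ) ^ ((i + 1) * (j + 1))) = E i := by
  ext n
  rw [map_add, (Nat.Partition.summable_genFun_term ch i).map_tsum _
    (WithPiTopology.continuous_coeff ℂ n)]
  simp only [map_smul, coeff_X_pow, E, coeff_mk, coeff_one]
  by_cases hn : n = 0
  · subst hn
    have : ∀ j : ℕ, ch (i + 1) (j + 1) • (if 0 = (i + 1) * (j + 1) then (1 : ℂ) else 0) = 0 := by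
      intro j
      rw [if_neg (by positivity), smul_zero]
    simp only [this, tsum_zero]
    by_cases h : (i + 1) % 3 = 1 <;> simp [h]
  · simp only [hn, if_false, zero_add]
    by_cases hd : (i + 1) ∣ n
    · obtain ⟨k, rfl⟩ := hd
      have hk : k ≠ 0 := by rintro rfl; simp at hn
      obtain ⟨l, rfl⟩ := Nat.exists_eq_succ_of_ne_zero hk
      rw [tsum_eq_single l]
      · rw [Nat.mul_div_cancel_left _ (by positivity)]
        by_cases h : (i + 1) % 3 = 1 <;> simp [ch, h]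
      · intro j hj
        rw [if_neg, smul_zero]
        intro h
        have := Nat.eq_of_mul_eq_mul_left (by positivity) h
        omega
    · have : ∀ j : ℕ, ch (i + 1) (j + 1) • (if n = (i + 1) * (j + 1) then (1 : ℂ) else 0) = 0 := by
        intro j
        rw [if_neg, smul_zero]
        rintro rfl
        exact hd ⟨_, rfl⟩
      simp only [this, tsum_zero]
      simp [hd]

open scoped PowerSeries.WithPiTopology in
lemma tendsto_coeff (n : ℕ) :
    Tendsto (fun M : ℕ => coeff n (∏ i ∈ range M, E i)) atTop (𝓝 ((a n : ℤ) : ℂ)) := by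
  have h := Nat.Partition.hasProd_genFun ch
  simp only [factor_eq] at h
  have h2 := h.tendsto_prod_nat
  have h3 := ((WithPiTopology.continuous_coeff ℂ n).tendsto _).comp h2
  rw [a_eq]
  exact h3

lemma ev_mul {A B : PowerSeries ℂ} {r : ℝ} (hr : 0 ≤ r)
    (hA : Summable fun n => ‖coeff n A‖ * r ^ n) (hB : Summable fun n => ‖coeff n B‖ * r ^ n) :
    (Summable fun n => ‖coeff n (A * B)‖ * r ^ n) ∧
    ∑' n, ‖coeff n (A * B)‖ * r ^ n ≤ (∑' n, ‖coeff n A‖ * r ^ n) * ∑' n, ‖coeff n B‖ * r ^ n := by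
  have hA' : Summable fun n => ‖(‖coeff n A‖ * r ^ n)‖ := by
    refine hA.congr fun n => ?_
    rw [Real.norm_of_nonneg (by positivity)]
  have hB' : Summable fun n => ‖(‖coeff n B‖ * r ^ n)‖ := by
    refine hB.congr fun n => ?_
    rw [Real.norm_of_nonneg (by positivity)]
  have h1 := summable_norm_sum_mul_antidiagonal_of_summable_norm hA' hB'
  have h2 := tsum_mul_tsum_eq_tsum_sum_antidiagonal_of_summable_norm hA' hB'
  have h3 : ∀ n, ‖coeff n (A * B)‖ * r ^ n ≤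
      ∑ kl ∈ antidiagonal n, (‖coeff kl.1 A‖ * r ^ kl.1) * (‖coeff kl.2 B‖ * r ^ kl.2) := by
    intro n
    rw [coeff_mul]
    calc ‖∑ p ∈ antidiagonal n, coeff p.1 A * coeff p.2 B‖ * r ^ n
        ≤ (∑ p ∈ antidiagonal n, ‖coeff p.1 A * coeff p.2 B‖) * r ^ n := by
          gcongr; exact norm_sum_le _ _
      _ = _ := by
          rw [Finset.sum_mul]
          refine Finset.sum_congr rfl fun p hp => ?_
          rw [norm_mul, ← mem_antidiagonal.mp hp, pow_add]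
          ring
  have h1' : Summable fun n => ∑ kl ∈ antidiagonal n,
      (‖coeff kl.1 A‖ * r ^ kl.1) * (‖coeff kl.2 B‖ * r ^ kl.2) := h1.of_norm
  have h4 : Summable fun n => ‖coeff n (A * B)‖ * r ^ n :=
    Summable.of_nonneg_of_le (fun n => by positivity) h3 h1'
  refine ⟨h4, ?_⟩
  rw [h2]
  exact h4.tsum_le_tsum h3 h1'

lemma ev_mul_val {A B : PowerSeries ℂ} {x : ℂ}
    (hA : Summable fun n => ‖coeff n A‖ * ‖x‖ ^ n) (hB : Summable fun n => ‖coeff n B‖ * ‖x‖ ^ n) :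
    ∑' n, coeff n (A * B) * x ^ n = (∑' n, coeff n A * x ^ n) * ∑' n, coeff n B * x ^ n := by
  have hA' : Summable fun n => ‖coeff n A * x ^ n‖ := by
    refine hA.congr fun n => ?_
    rw [norm_mul, norm_pow]
  have hB' : Summable fun n => ‖coeff n B * x ^ n‖ := by
    refine hB.congr fun n => ?_
    rw [norm_mul, norm_pow]
  rw [tsum_mul_tsum_eq_tsum_sum_antidiagonal_of_summable_norm hA' hB']
  refine tsum_congr fun n => ?_
  rw [coeff_mul, Finset.sum_mul]
  refine Finset.sum_congr rfl fun p hp => ?_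
  rw [← mem_antidiagonal.mp hp, pow_add]
  ring

lemma hasSum_dvd {K : Type*} [NormedField K] [CompleteSpace K] (d : ℕ) (hd : 0 < d) (e y : K)
    (h : ‖e * y ^ d‖ < 1) :
    HasSum (fun n => (if d ∣ n then e ^ (n / d) else 0) * y ^ n) (1 - e * y ^ d)⁻¹ := by
  have hinj : Function.Injective (fun k : ℕ => d * k) := fun p q hpq =>
    Nat.eq_of_mul_eq_mul_left hd hpq
  have h1 : HasSum (fun k : ℕ => (e * y ^ d) ^ k) (1 - e * y ^ d)⁻¹ :=
    hasSum_geometric_of_norm_lt_one h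
  rw [← hinj.hasSum_iff]
  · have : ((fun n => (if d ∣ n then e ^ (n / d) else 0) * y ^ n) ∘ fun k : ℕ => d * k) =
        fun k : ℕ => (e * y ^ d) ^ k := by
      funext k
      simp only [Function.comp]
      rw [if_pos ⟨k, rfl⟩, Nat.mul_div_cancel_left _ hd, mul_pow, pow_mul]
    rw [this]
    exact h1
  · intro n hn
    rw [if_neg, zero_mul]
    rintro ⟨k, rfl⟩
    exact hn ⟨k, rfl⟩

/-- norm sums of the local factor -/
lemma E_norm (i : ℕ) (r : ℝ) (hr0 : 0 ≤ r) (hr1 : r < 1) :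
    (Summable fun n => ‖coeff n (E i)‖ * r ^ n) ∧
      ∑' n, ‖coeff n (E i)‖ * r ^ n ≤ Real.exp (r ^ (i + 1) / (1 - r)) := by
  have hy0 : 0 ≤ r ^ (i + 1) := by positivity
  have hy1 : r ^ (i + 1) ≤ r := by
    calc r ^ (i + 1) ≤ r ^ 1 := pow_le_pow_of_le_one hr0 hr1.le (by omega)
      _ = r := pow_one r
  have h1r : 0 < 1 - r := by linarith
  have hexp : (1 - r ^ (i + 1))⁻¹ ≤ Real.exp (r ^ (i + 1) / (1 - r)) := by
    have h2 : r ^ (i + 1) / (1 - r ^ (i + 1)) ≤ r ^ (i + 1) / (1 - r) := by gcongr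
    have h3 : (1 - r ^ (i + 1))⁻¹ = r ^ (i + 1) / (1 - r ^ (i + 1)) + 1 := by
      have : 1 - r ^ (i + 1) ≠ 0 := by linarith
      field_simp; ring
    rw [h3]
    exact (Real.add_one_le_exp _).trans (Real.exp_le_exp.mpr h2)
  by_cases h : (i + 1) % 3 = 1
  · have hs := hasSum_dvd (i + 1) (by omega) (1 : ℝ) r (by
      rw [one_mul, Real.norm_of_nonneg hy0]; linarith)
    have he : (fun n => ‖coeff n (E i)‖ * r ^ n) =
        fun n => (if (i + 1) ∣ n then (1 : ℝ) ^ (n / (i + 1)) else 0) * r ^ n := by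
      funext n
      congr 1
      simp only [E, coeff_mk, h, true_and]
      by_cases hd : (i + 1) ∣ n
      · simp [hd]
      · have hn : n ≠ 0 := by rintro rfl; exact hd (dvd_zero _)
        simp [hd, hn]
    rw [he]
    refine ⟨hs.summable, ?_⟩
    rw [hs.tsum_eq, one_mul]
    exact hexp
  · have he : (fun n => ‖coeff n (E i)‖ * r ^ n) = fun n => if n = 0 then (1 : ℝ) else 0 := by
      funext n
      simp only [E, coeff_mk, h, false_and, if_false]
      by_cases hn : n = 0 <;> simp [hn]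
    rw [he]
    have hs : HasSum (fun n : ℕ => if n = 0 then (1 : ℝ) else 0) 1 := hasSum_ite_eq 0 1
    refine ⟨hs.summable, ?_⟩
    rw [hs.tsum_eq]
    exact Real.one_le_exp (by positivity)

lemma E_val (i : ℕ) (x : ℂ) (hx : ‖x‖ < 1) :
    ∑' n, coeff n (E i) * x ^ n = if (i + 1) % 3 = 1 then (1 + x ^ (i + 1))⁻¹ else 1 := by
  by_cases h : (i + 1) % 3 = 1
  · have hs := hasSum_dvd (i + 1) (by omega) (-1 : ℂ) x (by
      rw [norm_mul, norm_neg, norm_one, one_mul, norm_pow]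
      exact pow_lt_one₀ (norm_nonneg _) hx (by omega))
    rw [if_pos h]
    have he : (fun n => coeff n (E i) * x ^ n) =
        fun n => (if (i + 1) ∣ n then (-1 : ℂ) ^ (n / (i + 1)) else 0) * x ^ n := by
      funext n
      congr 1
      simp only [E, coeff_mk, h, true_and]
      by_cases hd : (i + 1) ∣ n
      · simp [hd]
      · have hn : n ≠ 0 := by rintro rfl; exact hd (dvd_zero _)
        simp [hd, hn]
    rw [he, hs.tsum_eq]
    congr 1; ring
  · have he : (fun n => coeff n (E i) * x ^ n) = fun n => if n = 0 then (1 : ℂ) else 0 := by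
      funext n
      simp only [E, coeff_mk, h, false_and, if_false]
      by_cases hn : n = 0 <;> simp [hn]
    rw [he, if_neg h]
    exact (hasSum_ite_eq 0 (1 : ℂ)).tsum_eq

lemma prod_norm (M : ℕ) (r : ℝ) (hr0 : 0 ≤ r) (hr1 : r < 1) :
    (Summable fun n => ‖coeff n (∏ i ∈ range M, E i)‖ * r ^ n) ∧
      ∑' n, ‖coeff n (∏ i ∈ range M, E i)‖ * r ^ n ≤
        Real.exp (∑ i ∈ range M, r ^ (i + 1) / (1 - r)) := by
  induction M with
  | zero =>
    have he : (fun n => ‖coeff n (∏ i ∈ range 0, E i)‖ * r ^ n) =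
        fun n => if n = 0 then (1 : ℝ) else 0 := by
      funext n
      simp only [range_zero, prod_empty, coeff_one]
      by_cases hn : n = 0 <;> simp [hn]
    rw [he]
    have hs : HasSum (fun n : ℕ => if n = 0 then (1 : ℝ) else 0) 1 := hasSum_ite_eq 0 1
    refine ⟨hs.summable, ?_⟩
    rw [hs.tsum_eq]
    simp
  | succ M ih =>
    rw [prod_range_succ, sum_range_succ, Real.exp_add]
    obtain ⟨h1, h2⟩ := ih
    obtain ⟨h3, h4⟩ := E_norm M r hr0 hr1
    obtain ⟨h5, h6⟩ := ev_mul hr0 h1 h3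
    refine ⟨h5, h6.trans ?_⟩
    gcongr

lemma prod_norm' (M : ℕ) (r : ℝ) (hr0 : 0 ≤ r) (hr1 : r < 1) (n : ℕ) :
    ‖coeff n (∏ i ∈ range M, E i)‖ * r ^ n ≤ Real.exp (1 / (1 - r) / (1 - r)) := by
  obtain ⟨h1, h2⟩ := prod_norm M r hr0 hr1
  have h1r : 0 < 1 - r := by linarith
  refine (h1.le_tsum n fun j _ => by positivity).trans (h2.trans ?_)
  apply Real.exp_le_exp.mpr
  rw [← Finset.sum_div]
  gcongr
  have hs := hasSum_geometric_of_lt_one hr0 hr1
  have h3 : ∑ i ∈ range M, r ^ (i + 1) ≤ ∑ i ∈ range M, r ^ i := by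
    apply Finset.sum_le_sum
    intro i _
    exact pow_le_pow_of_le_one hr0 hr1.le (by omega)
  have h4 : ∑ i ∈ range M, r ^ i ≤ (1 - r)⁻¹ := by
    rw [← hs.tsum_eq]
    exact hs.summable.sum_le_tsum _ fun j _ => by positivity
  rw [one_div]
  exact h3.trans h4

lemma prod_val (M : ℕ) (x : ℂ) (hx : ‖x‖ < 1) :
    ∑' n, coeff n (∏ i ∈ range M, E i) * x ^ n =
      ∏ i ∈ range M, if (i + 1) % 3 = 1 then (1 + x ^ (i + 1))⁻¹ else 1 := by
  induction M with
  | zero =>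
    have he : (fun n => coeff n (∏ i ∈ range 0, E i) * x ^ n) =
        fun n => if n = 0 then (1 : ℂ) else 0 := by
      funext n
      simp only [range_zero, prod_empty, coeff_one]
      by_cases hn : n = 0 <;> simp [hn]
    rw [he]
    simp
  | succ M ih =>
    rw [prod_range_succ, prod_range_succ, ev_mul_val (prod_norm M _ (norm_nonneg _) hx).1
      (E_norm M _ (norm_nonneg _) hx).1, ih, E_val M x hx]

/-- absolute bound of the numbers `a n`. -/
lemma a_bound (r : ℝ) (hr0 : 0 ≤ r) (hr1 : r < 1) (n : ℕ) :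
    ‖((a n : ℤ) : ℂ)‖ * r ^ n ≤ Real.exp (1 / (1 - r) / (1 - r)) := by
  have h := ((tendsto_coeff n).norm.mul_const (r ^ n))
  exact le_of_tendsto h (Eventually.of_forall fun M => prod_norm' M r hr0 hr1 n)

lemma bound_summable (x : ℂ) (hx : ‖x‖ < 1) : ∃ r : ℝ, 0 ≤ r ∧ r < 1 ∧ 0 < r ∧ ‖x‖ / r < 1 := by
  refine ⟨(1 + ‖x‖) / 2, by positivity, by linarith, by positivity, ?_⟩
  rw [div_lt_one (by positivity)]
  linarith

lemma norm_term_le (x : ℂ) (r : ℝ) (hr0 : 0 < r) (c : ℂ) (n : ℕ) (C : ℝ)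
    (h : ‖c‖ * r ^ n ≤ C) : ‖c * x ^ n‖ ≤ C * (‖x‖ / r) ^ n := by
  rw [norm_mul, norm_pow]
  have : ‖c‖ * ‖x‖ ^ n = (‖c‖ * r ^ n) * (‖x‖ / r) ^ n := by
    rw [div_pow]; field_simp
  rw [this]
  gcongr

lemma a_summable (x : ℂ) (hx : ‖x‖ < 1) : Summable fun n => ‖((a n : ℤ) : ℂ) * x ^ n‖ := by
  obtain ⟨r, hr0, hr1, hr2, hr3⟩ := bound_summable x hx
  have hg : Summable fun n : ℕ => Real.exp (1 / (1 - r) / (1 - r)) * (‖x‖ / r) ^ n :=
    (summable_geometric_of_lt_one (by positivity) hr3).mul_left _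
  exact Summable.of_nonneg_of_le (fun n => norm_nonneg _)
    (fun n => norm_term_le x r hr2 _ n _ (a_bound r hr0 hr1 n)) hg

/-- the generating function -/
noncomputable def F (x : ℂ) : ℂ := ∑' n, ((a n : ℤ) : ℂ) * x ^ n

lemma tendsto_F (x : ℂ) (hx : ‖x‖ < 1) :
    Tendsto (fun M : ℕ => ∏ i ∈ range M, if (i + 1) % 3 = 1 then (1 + x ^ (i + 1))⁻¹ else 1)
      atTop (𝓝 (F x)) := by
  obtain ⟨r, hr0, hr1, hr2, hr3⟩ := bound_summable x hx
  have hg : Summable fun n : ℕ => Real.exp (1 / (1 - r) / (1 - r)) * (‖x‖ / r) ^ n :=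
    (summable_geometric_of_lt_one (by positivity) hr3).mul_left _
  have := tendsto_tsum_of_dominated_convergence (𝓕 := atTop)
    (f := fun (M : ℕ) n => coeff n (∏ i ∈ range M, E i) * x ^ n)
    (g := fun n => ((a n : ℤ) : ℂ) * x ^ n) hg
    (fun n => (tendsto_coeff n).mul_const _)
    (Eventually.of_forall fun M n => norm_term_le x r hr2 _ n _ (prod_norm' M r hr0 hr1 n))
  simp only [prod_val _ x hx] at this
  exact this

/-- the logarithm of `F` -/
noncomputable def t (x : ℂ) (n : ℕ) : ℂ := (-1) ^ n / n * (x ^ n / (1 - x ^ (3 * n)))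

noncomputable def T (x : ℂ) : ℂ := ∑' n, t x n

lemma partial_prod (M : ℕ) (x : ℂ) :
    (∏ i ∈ range (3 * M), if (i + 1) % 3 = 1 then (1 + x ^ (i + 1))⁻¹ else 1) =
      ∏ m ∈ range M, (1 + x ^ (3 * m + 1))⁻¹ := by
  induction M with
  | zero => simp
  | succ M ih =>
    rw [show 3 * (M + 1) = 3 * M + 1 + 1 + 1 by ring, prod_range_succ, prod_range_succ,
      prod_range_succ, ih, prod_range_succ, if_pos (by omega), if_neg (by omega),
      if_neg (by omega), mul_one, mul_one]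

lemma hasSum_log (x : ℂ) (hx : ‖x‖ < 1) (m : ℕ) :
    HasSum (fun n : ℕ => (-1 : ℂ) ^ n / n * x ^ ((3 * m + 1) * n))
      (-Complex.log (1 + x ^ (3 * m + 1))) := by
  have hz : ‖-x ^ (3 * m + 1)‖ < 1 := by
    rw [norm_neg, norm_pow]
    exact pow_lt_one₀ (norm_nonneg _) hx (by omega)
  have h := Complex.hasSum_taylorSeries_neg_log hz
  rw [sub_neg_eq_add] at h
  have he : (fun n : ℕ => (-1 : ℂ) ^ n / n * x ^ ((3 * m + 1) * n)) =
      fun n : ℕ => (-x ^ (3 * m + 1)) ^ n / n := by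
    funext n
    rw [neg_pow, pow_mul]
    ring
  rw [he]
  exact h

lemma partial_exp (M : ℕ) (x : ℂ) (hx : ‖x‖ < 1) :
    (∏ m ∈ range M, (1 + x ^ (3 * m + 1))⁻¹) =
      Complex.exp (∑' n : ℕ, ∑ m ∈ range M, (-1 : ℂ) ^ n / n * x ^ ((3 * m + 1) * n)) := by
  rw [Summable.tsum_finsetSum fun m _ => (hasSum_log x hx m).summable, Complex.exp_sum]
  refine Finset.prod_congr rfl fun m _ => ?_
  rw [(hasSum_log x hx m).tsum_eq, Complex.exp_neg, Complex.exp_log]
  intro h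
  have h2 : ‖x ^ (3 * m + 1)‖ < 1 := by
    rw [norm_pow]
    exact pow_lt_one₀ (norm_nonneg _) hx (by omega)
  have h3 : x ^ (3 * m + 1) = -1 := by linear_combination h
  rw [h3, norm_neg, norm_one] at h2
  exact lt_irrefl _ h2

lemma one_sub_ne (x : ℂ) (hx : ‖x‖ < 1) (n : ℕ) (hn : n ≠ 0) : 1 - x ^ (3 * n) ≠ 0 := by
  intro h
  have h2 : ‖x ^ (3 * n)‖ < 1 := by
    rw [norm_pow]
    exact pow_lt_one₀ (norm_nonneg _) hx (by omega)
  have h3 : x ^ (3 * n) = 1 := by linear_combination -h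
  rw [h3, norm_one] at h2
  exact lt_irrefl _ h2

lemma geo (M n : ℕ) (x : ℂ) (hx : ‖x‖ < 1) (hn : n ≠ 0) :
    ∑ m ∈ range M, (-1 : ℂ) ^ n / n * x ^ ((3 * m + 1) * n) =
      t x n * (1 - (x ^ (3 * n)) ^ M) := by
  have h := one_sub_ne x hx n hn
  have h1 : x ^ (3 * n) ≠ 1 := fun h' => h (by rw [h', sub_self])
  rw [← Finset.mul_sum]
  have h2 : ∀ m ∈ range M, x ^ ((3 * m + 1) * n) = x ^ n * (x ^ (3 * n)) ^ m := by
    intro m _
    rw [← pow_mul, ← pow_add]
    congr 1; ring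
  rw [Finset.sum_congr rfl h2, ← Finset.mul_sum, geom_sum_eq h1, t]
  have h3 : x ^ (3 * n) - 1 ≠ 0 := sub_ne_zero.mpr h1
  field_simp
  ring

lemma t_zero (x : ℂ) : t x 0 = 0 := by simp [t]

lemma one_sub_norm (x : ℂ) (hx : ‖x‖ < 1) (n : ℕ) (hn : n ≠ 0) :
    1 - ‖x‖ ≤ ‖1 - x ^ (3 * n)‖ := by
  have h1 : ‖(1 : ℂ)‖ - ‖x ^ (3 * n)‖ ≤ ‖1 - x ^ (3 * n)‖ := norm_sub_norm_le _ _
  rw [norm_one, norm_pow] at h1
  have h2 : ‖x‖ ^ (3 * n) ≤ ‖x‖ ^ 1 := pow_le_pow_of_le_one (norm_nonneg _) hx.le (by omega)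
  rw [pow_one] at h2
  linarith

lemma t_norm_le (x : ℂ) (hx : ‖x‖ < 1) (n : ℕ) : ‖t x n‖ ≤ ‖x‖ ^ n / (1 - ‖x‖) := by
  have h1r : 0 < 1 - ‖x‖ := by linarith
  by_cases hn : n = 0
  · subst hn; rw [t_zero, norm_zero]; positivity
  rw [t, norm_mul, norm_div, norm_pow, norm_neg, norm_one, one_pow, norm_div, norm_pow]
  have h1 : (1 : ℝ) ≤ ‖(n : ℂ)‖ := by
    rw [Complex.norm_natCast]; exact_mod_cast Nat.one_le_iff_ne_zero.mpr hn
  have h2 := one_sub_norm x hx n hn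
  calc 1 / ‖(n : ℂ)‖ * (‖x‖ ^ n / ‖1 - x ^ (3 * n)‖) ≤ 1 * (‖x‖ ^ n / (1 - ‖x‖)) := by
        gcongr
        rw [div_le_one (by linarith)]
        exact h1
    _ = _ := one_mul _

lemma F_eq (x : ℂ) (hx : ‖x‖ < 1) : F x = Complex.exp (T x) := by
  have h1 := tendsto_F x hx
  have h2 : Tendsto (fun M : ℕ => 3 * M) atTop atTop :=
    tendsto_id.const_mul_atTop' (by norm_num)
  have h3 := h1.comp h2
  have h4 : ((fun M : ℕ => ∏ i ∈ range M, if (i + 1) % 3 = 1 then (1 + x ^ (i + 1))⁻¹ else 1) ∘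
      fun M : ℕ => 3 * M) = fun M : ℕ => Complex.exp
        (∑' n : ℕ, ∑ m ∈ range M, (-1 : ℂ) ^ n / n * x ^ ((3 * m + 1) * n)) := by
    funext M
    simp only [Function.comp]
    rw [partial_prod, partial_exp M x hx]
  rw [h4] at h3
  have hb : Summable fun n : ℕ => 2 * (‖x‖ ^ n / (1 - ‖x‖)) :=
    ((summable_geometric_of_lt_one (norm_nonneg _) hx).div_const _).mul_left _
  have h5 : Tendsto (fun M : ℕ => ∑' n : ℕ, ∑ m ∈ range M,
      (-1 : ℂ) ^ n / n * x ^ ((3 * m + 1) * n)) atTop (𝓝 (T x)) := by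
    refine tendsto_tsum_of_dominated_convergence hb ?_ ?_
    · intro n
      by_cases hn : n = 0
      · subst hn
        rw [t_zero]
        refine tendsto_const_nhds.congr fun M => ?_
        simp
      · have : (fun M : ℕ => ∑ m ∈ range M, (-1 : ℂ) ^ n / n * x ^ ((3 * m + 1) * n)) =
            fun M : ℕ => t x n * (1 - (x ^ (3 * n)) ^ M) := by
          funext M; exact geo M n x hx hn
        rw [this]
        have hlt : ‖x ^ (3 * n)‖ < 1 := by
          rw [norm_pow]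
          exact pow_lt_one₀ (norm_nonneg _) hx (by omega)
        have h6 := tendsto_pow_atTop_nhds_zero_of_norm_lt_one hlt
        have h7 := (h6.const_sub 1).const_mul (t x n)
        simpa using h7
    · refine Eventually.of_forall fun M n => ?_
      by_cases hn : n = 0
      · subst hn
        have : 0 < 1 - ‖x‖ := by linarith
        simp only [CharP.cast_eq_zero, div_zero, zero_mul, sum_const_zero, norm_zero]
        positivity
      · rw [geo M n x hx hn, norm_mul]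
        have h8 : ‖1 - (x ^ (3 * n)) ^ M‖ ≤ 2 := by
          refine (norm_sub_le _ _).trans ?_
          rw [norm_one, norm_pow, norm_pow]
          have : (‖x‖ ^ (3 * n)) ^ M ≤ 1 :=
            pow_le_one₀ (by positivity) (pow_le_one₀ (norm_nonneg _) hx.le)
          linarith
        calc ‖t x n‖ * ‖1 - (x ^ (3 * n)) ^ M‖ ≤ (‖x‖ ^ n / (1 - ‖x‖)) * 2 := by
              gcongr
              exact t_norm_le x hx n
          _ = _ := by ring
  exact tendsto_nhds_unique h3 ((Complex.continuous_exp.tendsto _).comp h5)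

/-- the point `ζ e^{-s w}`. -/
noncomputable def xs (ζ w : ℂ) (s : ℝ) : ℂ := ζ * Complex.exp (-(s : ℂ) * w)

lemma xs_norm (ζ w : ℂ) (s : ℝ) (hζ : ‖ζ‖ = 1) (hw : w.re = 1) : ‖xs ζ w s‖ = Real.exp (-s) := by
  rw [xs, norm_mul, hζ, one_mul, Complex.norm_exp]
  congr 1
  simp [hw]

/-- the limit terms -/
noncomputable def lt (ζ w : ℂ) (n : ℕ) : ℂ :=
  if ζ ^ (3 * n) = 1 then (-ζ) ^ n / (3 * (n : ℂ) ^ 2 * w) else 0

lemma term_bound (ζ w : ℂ) (s : ℝ) (hs : 0 < s) (hζ : ‖ζ‖ = 1) (hw : w.re = 1) (n : ℕ) :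
    ‖(s : ℂ) * t (xs ζ w s) n‖ ≤ 1 / (n : ℝ) ^ 2 := by
  by_cases hn : n = 0
  · subst hn; rw [t_zero]; simp
  have hn1 : (0 : ℝ) < n := by exact_mod_cast Nat.pos_of_ne_zero hn
  have hx := xs_norm ζ w s hζ hw
  set x := xs ζ w s
  have hu : 0 < s * n := by positivity
  have h1 : s * n * Real.exp (-(s * n)) ≤ 1 - Real.exp (-(s * n)) := by
    have h2 := Real.add_one_le_exp (s * n)
    have h3 : Real.exp (s * n) * Real.exp (-(s * n)) = 1 := by
      rw [← Real.exp_add]; simp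
    have h4 : 0 < Real.exp (-(s * n)) := Real.exp_pos _
    nlinarith
  have h5 : s * n * Real.exp (-(s * n)) ≤ ‖1 - x ^ (3 * n)‖ := by
    have h6 : ‖(1 : ℂ)‖ - ‖x ^ (3 * n)‖ ≤ ‖1 - x ^ (3 * n)‖ := norm_sub_norm_le _ _
    rw [norm_one, norm_pow, hx, ← Real.exp_nat_mul] at h6
    have h7 : Real.exp (((3 * n : ℕ) : ℝ) * -s) ≤ Real.exp (-(s * n)) := by
      apply Real.exp_le_exp.mpr
      push_cast
      nlinarith
    linarith
  have h8 : 0 < s * n * Real.exp (-(s * n)) := by positivity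
  have h9 : ‖x ^ n‖ = Real.exp (-(s * n)) := by
    rw [norm_pow, hx, ← Real.exp_nat_mul]
    congr 1; ring
  rw [t, norm_mul, norm_mul, norm_div, norm_pow, norm_neg, norm_one, one_pow, norm_div, h9,
    Complex.norm_natCast, Complex.norm_real, Real.norm_of_nonneg hs.le]
  calc s * (1 / (n : ℝ) * (Real.exp (-(s * n)) / ‖1 - x ^ (3 * n)‖))
      ≤ s * (1 / (n : ℝ) * (Real.exp (-(s * n)) / (s * n * Real.exp (-(s * n))))) := by gcongr
    _ = 1 / (n : ℝ) ^ 2 := by
        have := (Real.exp_pos (-(s * n))).ne'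
        field_simp

lemma term_limit (ζ w : ℂ) (hw : w.re = 1) (n : ℕ) :
    Tendsto (fun s : ℝ => (s : ℂ) * t (xs ζ w s) n) (𝓝[>] 0) (𝓝 (lt ζ w n)) := by
  by_cases hn : n = 0
  · subst hn
    have : lt ζ w 0 = 0 := by simp [lt]
    rw [this]
    refine tendsto_const_nhds.congr fun s => ?_
    rw [t_zero, mul_zero]
  have hw0 : w ≠ 0 := by rintro rfl; simp at hw
  have hnC : (n : ℂ) ≠ 0 := by exact_mod_cast hn
  have hcont : Continuous fun s : ℝ => xs ζ w s := by unfold xs; fun_prop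
  have hx0 : Tendsto (fun s : ℝ => xs ζ w s) (𝓝[>] 0) (𝓝 ζ) := by
    have := hcont.tendsto 0
    rw [show xs ζ w 0 = ζ by simp [xs]] at this
    exact this.mono_left nhdsWithin_le_nhds
  by_cases h : ζ ^ (3 * n) = 1
  · rw [lt, if_pos h]
    have hd : HasDerivAt (fun s : ℝ => 1 - Complex.exp (-(s : ℂ) * (3 * n * w))) (3 * n * w) 0 := by
      have h1 : HasDerivAt (fun s : ℝ => -(s : ℂ) * (3 * n * w)) (-1 * (3 * n * w)) 0 :=
        (Complex.ofRealCLM.hasDerivAt.neg).mul_const _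
      have h2 := (h1.cexp).const_sub 1
      simpa using h2
    have h3 := hd.tendsto_slope_zero_right
    simp only [zero_add, Complex.ofReal_zero, neg_zero, zero_mul, Complex.exp_zero, sub_self,
      sub_zero] at h3
    have h4 : (3 * n * w : ℂ) ≠ 0 := by simp [hn, hw0]
    have h5 := h3.inv₀ h4
    have h6 : Tendsto (fun s : ℝ => (-1 : ℂ) ^ n / n * (xs ζ w s) ^ n *
        (s⁻¹ • (1 - Complex.exp (-(s : ℂ) * (3 * n * w))))⁻¹) (𝓝[>] 0)
        (𝓝 ((-1) ^ n / n * ζ ^ n * (3 * n * w)⁻¹)) :=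
      ((hx0.pow n).const_mul _).mul h5
    have h7 : (-1 : ℂ) ^ n / n * ζ ^ n * (3 * n * w)⁻¹ = (-ζ) ^ n / (3 * (n : ℂ) ^ 2 * w) := by
      rw [neg_pow ζ]
      field_simp
    rw [h7] at h6
    refine h6.congr' ?_
    filter_upwards [self_mem_nhdsWithin] with s hs
    have hs' : (s : ℂ) ≠ 0 := by
      have : (0 : ℝ) < s := hs
      exact_mod_cast this.ne'
    have h8 : (xs ζ w s) ^ (3 * n) = Complex.exp (-(s : ℂ) * (3 * n * w)) := by
      rw [xs, mul_pow, h, one_mul, ← Complex.exp_nat_mul]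
      congr 1
      push_cast; ring
    rw [t, h8, Complex.real_smul, Complex.ofReal_inv, mul_inv, inv_inv, div_eq_mul_inv ((xs ζ w s) ^ n)]
    ring
  · rw [lt, if_neg h]
    have h1 : Tendsto (fun s : ℝ => (-1 : ℂ) ^ n / n * ((xs ζ w s) ^ n / (1 - (xs ζ w s) ^ (3 * n))))
        (𝓝[>] 0) (𝓝 ((-1) ^ n / n * (ζ ^ n / (1 - ζ ^ (3 * n))))) := by
      refine (Tendsto.div (hx0.pow n) ((hx0.pow _).const_sub 1) ?_).const_mul _
      intro h'
      exact h (by linear_combination -h')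
    have h2 : Tendsto (fun s : ℝ => (s : ℂ)) (𝓝[>] 0) (𝓝 0) := by
      have := Complex.continuous_ofReal.tendsto (0 : ℝ)
      rw [Complex.ofReal_zero] at this
      exact this.mono_left nhdsWithin_le_nhds
    have h3 := h2.mul h1
    rw [zero_mul] at h3
    exact h3

lemma T_limit (ζ w : ℂ) (hζ : ‖ζ‖ = 1) (hw : w.re = 1) :
    Tendsto (fun s : ℝ => (s : ℂ) * T (xs ζ w s)) (𝓝[>] 0) (𝓝 (∑' n, lt ζ w n)) := by
  have hb : Summable fun n : ℕ => 1 / (n : ℝ) ^ 2 := Real.summable_one_div_nat_pow.mpr (by norm_num)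
  have := tendsto_tsum_of_dominated_convergence (𝓕 := 𝓝[>] (0 : ℝ))
    (f := fun (s : ℝ) n => (s : ℂ) * t (xs ζ w s) n) (g := fun n => lt ζ w n) hb
    (fun n => term_limit ζ w hw n) (by
      filter_upwards [self_mem_nhdsWithin] with s hs n
      exact term_bound ζ w s hs hζ hw n)
  simp only [tsum_mul_left] at this
  exact this

lemma lt_norm (ζ w : ℂ) (hζ : ‖ζ‖ = 1) (hw : w.re = 1) (n : ℕ) :
    ‖lt ζ w n‖ ≤ 1 / (n : ℝ) ^ 2 := by
  have h1 : (1 : ℝ) ≤ ‖w‖ := by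
    rw [← hw]; exact (le_abs_self _).trans (Complex.abs_re_le_norm w)
  unfold lt
  split_ifs with h
  · by_cases hn : n = 0
    · subst hn; simp
    have hn1 : (0 : ℝ) < n := by exact_mod_cast Nat.pos_of_ne_zero hn
    rw [norm_div, norm_pow, norm_neg, hζ, one_pow, norm_mul, norm_mul, norm_pow,
      Complex.norm_natCast, Complex.norm_ofNat]
    apply one_div_le_one_div_of_le (by positivity)
    nlinarith [sq_nonneg (n : ℝ), mul_nonneg (sq_nonneg (n : ℝ)) (sub_nonneg.mpr h1)]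
  · rw [norm_zero]; positivity

lemma lt_summable (ζ w : ℂ) (hζ : ‖ζ‖ = 1) (hw : w.re = 1) : Summable (lt ζ w) :=
  Summable.of_norm_bounded (Real.summable_one_div_nat_pow.mpr (by norm_num))
    (lt_norm ζ w hζ hw)

lemma hasSum_N (N : ℕ) (hN : 0 < N) :
    HasSum (fun n : ℕ => if N ∣ n then 1 / (3 * (n : ℝ) ^ 2) else 0)
      (1 / (3 * (N : ℝ) ^ 2) * (Real.pi ^ 2 / 6)) := by
  have hinj : Function.Injective (fun k : ℕ => N * k) := fun p q hpq =>
    Nat.eq_of_mul_eq_mul_left hN hpq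
  rw [← hinj.hasSum_iff]
  · have : ((fun n : ℕ => if N ∣ n then 1 / (3 * (n : ℝ) ^ 2) else 0) ∘ fun k : ℕ => N * k) =
        fun k : ℕ => 1 / (3 * (N : ℝ) ^ 2) * (1 / (k : ℝ) ^ 2) := by
      funext k
      simp only [Function.comp]
      rw [if_pos ⟨k, rfl⟩]
      push_cast
      rw [one_div_mul_one_div]
      congr 1; ring
    rw [this]
    exact hasSum_zeta_two.mul_left _
  · intro n hn
    rw [if_neg]
    rintro ⟨k, rfl⟩
    exact hn ⟨k, rfl⟩

lemma upper_generic (ζ : ℂ) (p : ℕ) (hp : 0 < p) (hζp : ζ ^ p = 1) (h3 : ζ ^ 3 ≠ 1) :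
    (∑' n, lt ζ 1 n).re ≤ Real.pi ^ 2 / 72 := by
  have hζ : ‖ζ‖ = 1 := Complex.norm_eq_one_of_pow_eq_one hζp hp.ne'
  have hfin : IsOfFinOrder (ζ ^ 3) := by
    rw [isOfFinOrder_iff_pow_eq_one]
    exact ⟨p, hp, by rw [← pow_mul, mul_comm, pow_mul, hζp, one_pow]⟩
  set N := orderOf (ζ ^ 3) with hNdef
  have hN0 : 0 < N := hfin.orderOf_pos
  have hN1 : N ≠ 1 := by
    intro h; exact h3 (orderOf_eq_one_iff.mp h)
  have hN2 : 2 ≤ N := by omega
  have hs := lt_summable ζ 1 hζ (by simp)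
  rw [Complex.re_tsum hs]
  have hsum := hasSum_N N hN0
  have hle : ∀ n, (lt ζ 1 n).re ≤ if N ∣ n then 1 / (3 * (n : ℝ) ^ 2) else 0 := by
    intro n
    unfold lt
    by_cases h : ζ ^ (3 * n) = 1
    · rw [if_pos h, if_pos (by rw [hNdef, orderOf_dvd_iff_pow_eq_one, ← pow_mul]; exact h)]
      refine (Complex.re_le_norm _).trans ?_
      rw [norm_div, norm_pow, norm_neg, hζ, one_pow, norm_mul, norm_mul, norm_pow,
        Complex.norm_natCast, Complex.norm_ofNat, norm_one, mul_one]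
    · rw [if_neg h]
      split_ifs
      · rw [Complex.zero_re]; positivity
      · simp
  have h1 : ∑' n, (lt ζ 1 n).re ≤ 1 / (3 * (N : ℝ) ^ 2) * (Real.pi ^ 2 / 6) := by
    rw [← hsum.tsum_eq]
    exact (Complex.hasSum_re hs.hasSum).summable.tsum_le_tsum hle hsum.summable
  refine h1.trans ?_
  have hNr : (2 : ℝ) ≤ N := by exact_mod_cast hN2
  have h4 : (4 : ℝ) ≤ (N : ℝ) ^ 2 := by nlinarith
  have h5 : 1 / (3 * (N : ℝ) ^ 2) ≤ 1 / 12 := by
    apply one_div_le_one_div_of_le (by norm_num); linarith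
  have : 0 ≤ Real.pi ^ 2 / 6 := by positivity
  nlinarith

lemma cosval (y : ℝ) (hy : y ∈ Set.Icc (0 : ℝ) 1) :
    HasSum (fun n : ℕ => 1 / (n : ℝ) ^ 2 * Real.cos (2 * Real.pi * n * y))
      (Real.pi ^ 2 * (y ^ 2 - y + 1 / 6)) := by
  have h := hasSum_one_div_nat_pow_mul_cos (k := 1) one_ne_zero hy
  rw [mul_one] at h
  convert h using 1
  rw [Polynomial.bernoulli]
  simp [Finset.sum_range_succ, bernoulli_two, bernoulli_one, bernoulli_zero]
  norm_num
  ring

lemma lt_cube (ζ w : ℂ) (h3 : ζ ^ 3 = 1) (n : ℕ) :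
    lt ζ w n = (-ζ) ^ n / (3 * (n : ℂ) ^ 2 * w) := by
  rw [lt, if_pos (by rw [pow_mul, h3, one_pow])]

lemma re_div_real (z : ℂ) (c : ℝ) : (z / (c : ℂ)).re = z.re / c := by
  rw [Complex.div_ofReal_re]

/-- the two non-real sixth roots of unity -/
lemma exp_pow_re (n : ℕ) :
    (Complex.exp (Real.pi / 3 * Complex.I) ^ n).re = Real.cos (2 * Real.pi * n * (1 / 6)) := by
  rw [← Complex.exp_nat_mul]
  have : (n : ℂ) * (Real.pi / 3 * Complex.I) = ((2 * Real.pi * n * (1 / 6) : ℝ) : ℂ) * Complex.I := by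
    push_cast; ring
  rw [this, Complex.exp_ofReal_mul_I_re]

lemma exp_pow_re' (n : ℕ) :
    (Complex.exp (-(Real.pi / 3 * Complex.I)) ^ n).re = Real.cos (2 * Real.pi * n * (1 / 6)) := by
  rw [← Complex.exp_nat_mul]
  have : (n : ℂ) * -(Real.pi / 3 * Complex.I) =
      ((-(2 * Real.pi * n * (1 / 6)) : ℝ) : ℂ) * Complex.I := by
    push_cast; ring
  rw [this, Complex.exp_ofReal_mul_I_re, Real.cos_neg]

lemma exp_pow_im' (n : ℕ) :
    (Complex.exp (-(Real.pi / 3 * Complex.I)) ^ n).im = -Real.sin (2 * Real.pi * n * (1 / 6)) := by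
  rw [← Complex.exp_nat_mul]
  have : (n : ℂ) * -(Real.pi / 3 * Complex.I) =
      ((-(2 * Real.pi * n * (1 / 6)) : ℝ) : ℂ) * Complex.I := by
    push_cast; ring
  rw [this, Complex.exp_ofReal_mul_I_im, Real.sin_neg]

lemma exp_sum : Complex.exp (Real.pi / 3 * Complex.I) + Complex.exp (-(Real.pi / 3 * Complex.I)) = 1 := by
  have h : Complex.cos ((Real.pi / 3 : ℝ) : ℂ) = 1 / 2 := by
    rw [← Complex.ofReal_cos, Real.cos_pi_div_three]; push_cast; ring
  rw [Complex.cos] at h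
  push_cast at h
  rw [neg_mul] at h
  linear_combination 2 * h

lemma exp_prod : Complex.exp (Real.pi / 3 * Complex.I) * Complex.exp (-(Real.pi / 3 * Complex.I)) = 1 := by
  rw [← Complex.exp_add]; simp

lemma upper_cube (ζ : ℂ) (h3 : ζ ^ 3 = 1) : (∑' n, lt ζ 1 n).re ≤ Real.pi ^ 2 / 72 := by
  have hζ : ‖ζ‖ = 1 := Complex.norm_eq_one_of_pow_eq_one h3 (by norm_num)
  have hs := lt_summable ζ 1 hζ (by simp)
  rw [Complex.re_tsum hs]
  have key : ∀ y ∈ Set.Icc (0 : ℝ) 1, y ^ 2 - y + 1 / 6 ≤ 1 / 36 →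
      (∀ n : ℕ, ((-ζ) ^ n).re = Real.cos (2 * Real.pi * n * y)) →
      ∑' n, (lt ζ 1 n).re ≤ Real.pi ^ 2 / 72 := by
    intro y hy hy2 hre
    have h1 := (cosval y hy).div_const 3
    have h2 : (fun n => (lt ζ 1 n).re) =
        fun n : ℕ => 1 / (n : ℝ) ^ 2 * Real.cos (2 * Real.pi * n * y) / 3 := by
      funext n
      rw [lt_cube ζ 1 h3, show (3 * (n : ℂ) ^ 2 * 1) = ((3 * (n : ℝ) ^ 2 : ℝ) : ℂ) by push_cast; ring,
        re_div_real, hre]
      by_cases hn : n = 0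
      · subst hn; simp
      have : (n : ℝ) ≠ 0 := by exact_mod_cast hn
      field_simp
    rw [h2, h1.tsum_eq]
    have : 0 < Real.pi ^ 2 := by positivity
    nlinarith
  have hf : (ζ - 1) * (ζ ^ 2 + ζ + 1) = 0 := by linear_combination h3
  rcases mul_eq_zero.mp hf with h | h
  · have h1 : ζ = 1 := by linear_combination h
    refine key (1 / 2) (by norm_num) (by norm_num) fun n => ?_
    rw [h1, show 2 * Real.pi * n * (1 / 2) = n * Real.pi by ring, Real.cos_nat_mul_pi]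
    have : (-1 : ℂ) ^ n = (((-1 : ℝ) ^ n : ℝ) : ℂ) := by push_cast; ring
    rw [this, Complex.ofReal_re]
  · have h1 : (-ζ - Complex.exp (Real.pi / 3 * Complex.I)) *
        (-ζ - Complex.exp (-(Real.pi / 3 * Complex.I))) = 0 := by
      linear_combination h + ζ * exp_sum + exp_prod
    rcases mul_eq_zero.mp h1 with h2 | h2
    · have h4 : -ζ = Complex.exp (Real.pi / 3 * Complex.I) := by linear_combination h2
      refine key (1 / 6) (by norm_num) (by norm_num) fun n => ?_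
      rw [h4, exp_pow_re]
    · have h4 : -ζ = Complex.exp (-(Real.pi / 3 * Complex.I)) := by linear_combination h2
      refine key (1 / 6) (by norm_num) (by norm_num) fun n => ?_
      rw [h4, exp_pow_re']

/-- the cube root of unity and the direction used for the lower bound. -/
noncomputable def om : ℂ := -Complex.exp (-(Real.pi / 3 * Complex.I))

noncomputable def w0 : ℂ := 1 - 3 / 4 * Complex.I

lemma om_cube : om ^ 3 = 1 := by
  have h : Complex.exp (-(Real.pi / 3 * Complex.I)) ^ 3 = -1 := by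
    rw [← Complex.exp_nat_mul]
    have : ((3 : ℕ) : ℂ) * -(Real.pi / 3 * Complex.I) = -(Real.pi * Complex.I) := by push_cast; ring
    rw [this, Complex.exp_neg, Complex.exp_pi_mul_I]
    norm_num
  rw [om, neg_pow, h]; norm_num

lemma w0_re : w0.re = 1 := by simp [w0]

lemma lt_om_re (n : ℕ) : (lt om w0 n).re =
    16 / 75 * (1 / (n : ℝ) ^ 2 * Real.cos (2 * Real.pi * n * (1 / 6))) +
      12 / 75 * (1 / (n : ℝ) ^ 2 * (Real.sin (2 * Real.pi * n * (1 / 6)) + 1)) -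
      12 / 75 * (1 / (n : ℝ) ^ 2) := by
  have hw : (w0)⁻¹ = (16 + 12 * Complex.I) / 25 := by
    rw [w0]
    have h1 : (1 - 3 / 4 * Complex.I) * ((16 + 12 * Complex.I) / 25) = 1 := by
      linear_combination (-9 / 25 : ℂ) * Complex.I_sq
    exact inv_eq_of_mul_eq_one_right h1
  rw [lt_cube om w0 om_cube, om, neg_neg]
  set z := Complex.exp (-(Real.pi / 3 * Complex.I)) ^ n with hz
  have hzr : z.re = Real.cos (2 * Real.pi * n * (1 / 6)) := exp_pow_re' n
  have hzi : z.im = -Real.sin (2 * Real.pi * n * (1 / 6)) := exp_pow_im' n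
  have h2 : z / (3 * (n : ℂ) ^ 2 * w0) = (z * (16 + 12 * Complex.I)) / ((75 * (n : ℝ) ^ 2 : ℝ) : ℂ) := by
    rw [div_eq_mul_inv, mul_inv, hw]
    push_cast
    by_cases hn : n = 0
    · subst hn; simp
    have : (n : ℂ) ≠ 0 := by exact_mod_cast hn
    field_simp
    ring
  rw [h2, re_div_real]
  have h3 : (z * (16 + 12 * Complex.I)).re = 16 * z.re - 12 * z.im := by
    simp [Complex.mul_re]; ring
  rw [h3, hzr, hzi]
  by_cases hn : n = 0
  · subst hn; simp
  have : (n : ℝ) ≠ 0 := by exact_mod_cast hn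
  field_simp
  ring

lemma lower_om : Real.pi ^ 2 / 72 + 1 / 100 ≤ (∑' n, lt om w0 n).re := by
  have hζ : ‖om‖ = 1 := Complex.norm_eq_one_of_pow_eq_one om_cube (by norm_num)
  have hs := lt_summable om w0 hζ w0_re
  rw [Complex.re_tsum hs]
  simp only [lt_om_re]
  have h1 := (cosval (1 / 6) (by norm_num)).mul_left (16 / 75 : ℝ)
  have h3 := hasSum_zeta_two.mul_left (12 / 75 : ℝ)
  have h2s : Summable fun n : ℕ =>
      12 / 75 * (1 / (n : ℝ) ^ 2 * (Real.sin (2 * Real.pi * n * (1 / 6)) + 1)) := by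
    have hb : Summable fun n : ℕ => 12 / 75 * (1 / (n : ℝ) ^ 2 * 2) :=
      (hasSum_zeta_two.summable.mul_right 2).mul_left _
    refine Summable.of_nonneg_of_le (fun n => ?_) (fun n => ?_) hb
    · have := Real.neg_one_le_sin (2 * Real.pi * n * (1 / 6))
      have h5 : 0 ≤ Real.sin (2 * Real.pi * n * (1 / 6)) + 1 := by linarith
      positivity
    · have := Real.sin_le_one (2 * Real.pi * n * (1 / 6))
      gcongr
      linarith
  have h2 : 12 / 75 * (5 / 4 * (Real.sqrt 3 / 2 + 1)) ≤ ∑' n : ℕ,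
      12 / 75 * (1 / (n : ℝ) ^ 2 * (Real.sin (2 * Real.pi * n * (1 / 6)) + 1)) := by
    have h4 := h2s.sum_le_tsum ({1, 2} : Finset ℕ) (fun n _ => by
      have := Real.neg_one_le_sin (2 * Real.pi * n * (1 / 6))
      have h5 : 0 ≤ Real.sin (2 * Real.pi * n * (1 / 6)) + 1 := by linarith
      positivity)
    refine le_trans (le_of_eq ?_) h4
    rw [Finset.sum_pair (by norm_num)]
    have e1 : 2 * Real.pi * ((1 : ℕ) : ℝ) * (1 / 6) = Real.pi / 3 := by push_cast; ring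
    have e2 : 2 * Real.pi * ((2 : ℕ) : ℝ) * (1 / 6) = Real.pi - Real.pi / 3 := by push_cast; ring
    rw [e1, e2, Real.sin_pi_sub, Real.sin_pi_div_three]
    norm_num
    ring
  have hsum : ∑' n : ℕ, (16 / 75 * (1 / (n : ℝ) ^ 2 * Real.cos (2 * Real.pi * n * (1 / 6))) +
      12 / 75 * (1 / (n : ℝ) ^ 2 * (Real.sin (2 * Real.pi * n * (1 / 6)) + 1)) -
      12 / 75 * (1 / (n : ℝ) ^ 2)) =
      16 / 75 * (Real.pi ^ 2 * ((1 / 6) ^ 2 - 1 / 6 + 1 / 6)) +
      (∑' n : ℕ, 12 / 75 * (1 / (n : ℝ) ^ 2 * (Real.sin (2 * Real.pi * n * (1 / 6)) + 1))) -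
      12 / 75 * (Real.pi ^ 2 / 6) :=
    ((h1.add h2s.hasSum).sub h3).tsum_eq
  rw [hsum]
  have h6 : (17 : ℝ) / 10 ≤ Real.sqrt 3 := by
    apply Real.le_sqrt_of_sq_le; norm_num
  have h7 : Real.pi < 3.15 := Real.pi_lt_d2
  have h8 : 0 < Real.pi := Real.pi_pos
  have h9 : Real.pi ^ 2 < 9.93 := by nlinarith
  nlinarith

lemma sign_shift (p N : ℕ) (H : ∀ n ≥ N, Int.sign (a (n + p)) = Int.sign (a n)) (k n : ℕ)
    (hn : N ≤ n) : Int.sign (a (n + k * p)) = Int.sign (a n) := by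
  induction k with
  | zero => simp
  | succ k ih =>
    rw [show n + (k + 1) * p = (n + k * p) + p by ring, H _ (by omega), ih]

/-- the eventual sign in each class -/
noncomputable def sg (p N r : ℕ) : ℤ := Int.sign (a (N * p + r))

lemma sign_eq (p N : ℕ) (hp : 0 < p) (H : ∀ n ≥ N, Int.sign (a (n + p)) = Int.sign (a n)) (n : ℕ)
    (hn : N * p ≤ n) : Int.sign (a n) = sg p N (n % p) := by
  have h1 : N ≤ n / p := (Nat.le_div_iff_mul_le hp).mpr hn
  have h2 : n = (N * p + n % p) + (n / p - N) * p := by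
    have h3 := Nat.div_add_mod n p
    obtain ⟨q, hq⟩ := Nat.exists_eq_add_of_le h1
    rw [hq, Nat.add_sub_cancel_left]
    rw [hq] at h3
    nlinarith
  conv_lhs => rw [h2]
  rw [sg]
  refine sign_shift p N H _ _ ?_
  calc N ≤ N * p := Nat.le_mul_of_pos_right N hp
    _ ≤ _ := Nat.le_add_right _ _

lemma sg_abs (p N r : ℕ) : ‖((sg p N r : ℤ) : ℂ)‖ ≤ 1 := by
  rw [Complex.norm_intCast, sg]
  rcases Int.sign_trichotomy (a (N * p + r)) with h | h | h <;> simp [h]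

/-- finite Fourier expansion -/
lemma fourier (p : ℕ) (hp : 0 < p) (ζ : ℂ) (hζ : IsPrimitiveRoot ζ p) (c : ℕ → ℂ) (n : ℕ) :
    c (n % p) = ∑ r ∈ range p, ∑ j ∈ range p, (c r / p * (ζ ^ j) ^ (p - r)) * (ζ ^ j) ^ n := by
  have hpC : (p : ℂ) ≠ 0 := by exact_mod_cast hp.ne'
  have h1 : ∀ r ∈ range p, ∑ j ∈ range p, (c r / p * (ζ ^ j) ^ (p - r)) * (ζ ^ j) ^ n =
      if r = n % p then c (n % p) else 0 := by
    intro r hr
    rw [mem_range] at hr
    have h2 : ∀ j ∈ range p, (c r / p * (ζ ^ j) ^ (p - r)) * (ζ ^ j) ^ n =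
        c r / p * (ζ ^ (p - r + n)) ^ j := by
      intro j _
      rw [← pow_mul, ← pow_mul, ← pow_mul, mul_assoc, ← pow_add]
      congr 2; ring
    rw [Finset.sum_congr rfl h2, ← Finset.mul_sum]
    by_cases h : r = n % p
    · rw [if_pos h]
      have h3 : p ∣ p - r + n := by
        have h4 := Nat.div_add_mod n p
        refine ⟨n / p + 1, ?_⟩
        rw [mul_add, mul_one]; omega
      rw [(hζ.pow_eq_one_iff_dvd _).mpr h3]
      simp only [one_pow, sum_const, card_range, nsmul_eq_mul, mul_one]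
      rw [← h]
      field_simp
    · rw [if_neg h]
      have h3 : ¬ p ∣ p - r + n := by
        intro h4
        apply h
        have h5 : (p - r + n) % p = 0 := Nat.mod_eq_zero_of_dvd h4
        have h6 : (p - r + n + r) % p = n % p := by
          rw [show p - r + n + r = n + p by omega, Nat.add_mod_right]
        rw [Nat.add_mod, h5, zero_add, Nat.mod_mod, Nat.mod_eq_of_lt hr] at h6
        exact h6
      have h4 : ζ ^ (p - r + n) ≠ 1 := fun h5 => h3 ((hζ.pow_eq_one_iff_dvd _).mp h5)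
      have h5 : ∑ j ∈ range p, (ζ ^ (p - r + n)) ^ j = 0 := by
        rw [geom_sum_eq h4, ← pow_mul, mul_comm, pow_mul, hζ.pow_eq_one, one_pow, sub_self,
          zero_div]
      rw [h5, mul_zero]
  rw [Finset.sum_congr rfl h1, Finset.sum_ite_eq' (range p) (n % p), if_pos]
  exact mem_range.mpr (Nat.mod_lt _ hp)

/-- the absolute series is controlled by the values at the points `ζ^j ρ`. -/
lemma abs_series (p N : ℕ) (hp : 0 < p) (H : ∀ n ≥ N, Int.sign (a (n + p)) = Int.sign (a n))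
    (ζ : ℂ) (hζ : IsPrimitiveRoot ζ p) (ρ : ℝ) (h0 : 0 ≤ ρ) (h1 : ρ < 1) :
    ∑' n, |((a n : ℤ) : ℝ)| * ρ ^ n ≤
      (∑ n ∈ range (N * p), 2 * |((a n : ℤ) : ℝ)|) + ∑ j ∈ range p, ‖F (ζ ^ j * ρ)‖ := by
  have hζn : ‖ζ‖ = 1 := hζ.norm'_eq_one hp.ne'
  have hxn : ∀ j : ℕ, ‖ζ ^ j * (ρ : ℂ)‖ < 1 := by
    intro j
    rw [norm_mul, norm_pow, hζn, one_pow, one_mul, Complex.norm_real, Real.norm_of_nonneg h0]
    exact h1
  have hρn : ‖(ρ : ℂ)‖ < 1 := by rw [Complex.norm_real, Real.norm_of_nonneg h0]; exact h1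
  -- the signed series
  have hS : HasSum (fun n => ((sg p N (n % p) : ℤ) : ℂ) * (((a n : ℤ) : ℂ) * (ρ : ℂ) ^ n))
      (∑ r ∈ range p, ∑ j ∈ range p,
        (((sg p N r : ℤ) : ℂ) / p * (ζ ^ j) ^ (p - r)) * F (ζ ^ j * ρ)) := by
    have h2 : ∀ n, ((sg p N (n % p) : ℤ) : ℂ) * (((a n : ℤ) : ℂ) * (ρ : ℂ) ^ n) =
        ∑ r ∈ range p, ∑ j ∈ range p, (((sg p N r : ℤ) : ℂ) / p * (ζ ^ j) ^ (p - r)) *
          (((a n : ℤ) : ℂ) * (ζ ^ j * ρ) ^ n) := by
      intro n
      rw [fourier p hp ζ hζ (fun r => ((sg p N r : ℤ) : ℂ)) n, Finset.sum_mul]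
      refine Finset.sum_congr rfl fun r _ => ?_
      rw [Finset.sum_mul]
      refine Finset.sum_congr rfl fun j _ => ?_
      rw [mul_pow]; ring
    simp only [h2]
    refine hasSum_sum fun r _ => hasSum_sum fun j _ => ?_
    exact ((a_summable _ (hxn j)).of_norm.hasSum).mul_left _
  have hSn : ‖∑ r ∈ range p, ∑ j ∈ range p,
      (((sg p N r : ℤ) : ℂ) / p * (ζ ^ j) ^ (p - r)) * F (ζ ^ j * ρ)‖ ≤
        ∑ j ∈ range p, ‖F (ζ ^ j * ρ)‖ := by
    have hpR : (0 : ℝ) < p := by exact_mod_cast hp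
    calc _ ≤ ∑ r ∈ range p, ∑ j ∈ range p, (1 / (p : ℝ)) * ‖F (ζ ^ j * ρ)‖ := by
          refine (norm_sum_le _ _).trans (Finset.sum_le_sum fun r _ => ?_)
          refine (norm_sum_le _ _).trans (Finset.sum_le_sum fun j _ => ?_)
          rw [norm_mul, norm_mul, norm_div, norm_pow, norm_pow, hζn, one_pow, one_pow, mul_one,
            Complex.norm_natCast]
          gcongr
          exact sg_abs p N r
      _ = ∑ j ∈ range p, ‖F (ζ ^ j * ρ)‖ := by
          rw [Finset.sum_const, card_range, nsmul_eq_mul, ← Finset.mul_sum, ← mul_assoc,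
            mul_one_div_cancel hpR.ne', one_mul]
  -- real part
  have hSr := Complex.hasSum_re hS
  have hre : ∀ n, (((sg p N (n % p) : ℤ) : ℂ) * (((a n : ℤ) : ℂ) * (ρ : ℂ) ^ n)).re =
      (sg p N (n % p) : ℝ) * ((a n : ℝ) * ρ ^ n) := by
    intro n
    have : ((sg p N (n % p) : ℤ) : ℂ) * (((a n : ℤ) : ℂ) * (ρ : ℂ) ^ n) =
        (((sg p N (n % p) : ℝ) * ((a n : ℝ) * ρ ^ n) : ℝ) : ℂ) := by push_cast; ring
    rw [this, Complex.ofReal_re]
  simp only [hre] at hSr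
  have habs : Summable fun n => |((a n : ℤ) : ℝ)| * ρ ^ n := by
    refine (a_summable (ρ : ℂ) hρn).congr fun n => ?_
    rw [norm_mul, norm_pow, Complex.norm_real, Real.norm_of_nonneg h0, Complex.norm_intCast]
  have hdiff := habs.hasSum.sub hSr
  have hfin : ∑' n, (|((a n : ℤ) : ℝ)| * ρ ^ n - (sg p N (n % p) : ℝ) * ((a n : ℝ) * ρ ^ n)) =
      ∑ n ∈ range (N * p), (|((a n : ℤ) : ℝ)| * ρ ^ n - (sg p N (n % p) : ℝ) * ((a n : ℝ) * ρ ^ n)) := by
    refine tsum_eq_sum fun n hn => ?_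
    rw [mem_range, not_lt] at hn
    have h3 := sign_eq p N hp H n hn
    have h4 : |((a n : ℤ) : ℝ)| = (sg p N (n % p) : ℝ) * (a n : ℝ) := by
      rw [← h3]
      have h5 : (Int.sign (a n)) * a n = |a n| := Int.sign_mul_self_eq_abs _
      rw [← Int.cast_abs, ← h5]; push_cast; ring
    rw [h4]; ring
  have hle : ∑ n ∈ range (N * p), (|((a n : ℤ) : ℝ)| * ρ ^ n -
      (sg p N (n % p) : ℝ) * ((a n : ℝ) * ρ ^ n)) ≤ ∑ n ∈ range (N * p), 2 * |((a n : ℤ) : ℝ)| := by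
    refine Finset.sum_le_sum fun n _ => ?_
    have h3 : ρ ^ n ≤ 1 := pow_le_one₀ h0 h1.le
    have h3' : 0 ≤ ρ ^ n := by positivity
    have h4 : |(sg p N (n % p) : ℝ)| ≤ 1 := by
      have := sg_abs p N (n % p)
      rwa [Complex.norm_intCast] at this
    have h5 : -((sg p N (n % p) : ℝ) * ((a n : ℝ) * ρ ^ n)) ≤ |((a n : ℤ) : ℝ)| := by
      refine (neg_le_abs _).trans ?_
      rw [abs_mul, abs_mul, abs_of_nonneg h3']
      have h6 : |((a n : ℤ) : ℝ)| * ρ ^ n ≤ |((a n : ℤ) : ℝ)| :=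
        mul_le_of_le_one_right (abs_nonneg _) h3
      have h7 : 0 ≤ |((a n : ℤ) : ℝ)| * ρ ^ n := by positivity
      calc |(sg p N (n % p) : ℝ)| * (|((a n : ℤ) : ℝ)| * ρ ^ n)
          ≤ 1 * (|((a n : ℤ) : ℝ)| * ρ ^ n) := by gcongr
        _ ≤ _ := by rw [one_mul]; exact h6
    have h8 : |((a n : ℤ) : ℝ)| * ρ ^ n ≤ |((a n : ℤ) : ℝ)| :=
      mul_le_of_le_one_right (abs_nonneg _) h3
    linarith
  have h9 := hdiff.tsum_eq
  rw [hfin] at h9
  have h10 := (Complex.re_le_norm _).trans hSn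
  linarith

lemma F_norm (x : ℂ) (hx : ‖x‖ < 1) : ‖F x‖ = Real.exp (T x).re := by
  rw [F_eq x hx, Complex.norm_exp]

theorem not_periodic (p N : ℕ) (hp : 0 < p)
    (H : ∀ n ≥ N, Int.sign (a (n + p)) = Int.sign (a n)) : False := by
  set ζ := Complex.exp (2 * Real.pi * Complex.I / p) with hζdef
  have hζ : IsPrimitiveRoot ζ p := Complex.isPrimitiveRoot_exp p hp.ne'
  have hζn : ‖ζ‖ = 1 := hζ.norm'_eq_one hp.ne'
  have homn : ‖om‖ = 1 := Complex.norm_eq_one_of_pow_eq_one om_cube (by norm_num)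
  set A0 := Real.pi ^ 2 / 72 with hA0
  have hA0pos : 0 < A0 := by positivity
  -- upper bounds
  have hup : ∀ j ∈ range p, ∀ᶠ s : ℝ in 𝓝[>] 0, s * (T (xs (ζ ^ j) 1 s)).re < A0 + 1 / 300 := by
    intro j _
    have h1 := T_limit (ζ ^ j) 1 (by rw [norm_pow, hζn, one_pow]) (by simp)
    have h2 := (Complex.continuous_re.tendsto _).comp h1
    have h3 : (∑' n, lt (ζ ^ j) 1 n).re ≤ A0 := by
      by_cases h : (ζ ^ j) ^ 3 = 1
      · exact upper_cube _ h
      · exact upper_generic _ p hp (by rw [← pow_mul, mul_comm, pow_mul, hζ.pow_eq_one, one_pow]) h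
    have h4 := h2.eventually (Iio_mem_nhds (show (∑' n, lt (ζ ^ j) 1 n).re < A0 + 1 / 300 by linarith))
    filter_upwards [h4] with s hs
    simpa using hs
  have hup' : ∀ᶠ s : ℝ in 𝓝[>] 0, ∀ j ∈ range p, s * (T (xs (ζ ^ j) 1 s)).re < A0 + 1 / 300 :=
    (Filter.eventually_all_finset _).mpr hup
  have hlow : ∀ᶠ s : ℝ in 𝓝[>] 0, A0 + 2 / 300 < s * (T (xs om w0 s)).re := by
    have h1 := T_limit om w0 homn w0_re
    have h2 := (Complex.continuous_re.tendsto _).comp h1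
    have h3 := lower_om
    have h4 := h2.eventually (Ioi_mem_nhds (show A0 + 2 / 300 < (∑' n, lt om w0 n).re by linarith))
    filter_upwards [h4] with s hs
    simpa using hs
  set K := ∑ n ∈ range (N * p), 2 * |((a n : ℤ) : ℝ)| with hK
  have hK0 : 0 ≤ K := Finset.sum_nonneg fun n _ => by positivity
  have hbig : ∀ᶠ s : ℝ in 𝓝[>] 0, K + p < 1 / 300 / s := by
    have h1 : Tendsto (fun s : ℝ => 1 / 300 / s) (𝓝[>] 0) atTop := by
      simp only [div_eq_mul_inv (1 / 300 : ℝ)]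
      exact tendsto_inv_nhdsGT_zero.const_mul_atTop (by norm_num)
    exact h1.eventually_gt_atTop _
  obtain ⟨s, ⟨⟨h1, h2⟩, h3⟩, hs⟩ := (((hup'.and hlow).and hbig).and self_mem_nhdsWithin).exists
  have hs0 : (0 : ℝ) < s := hs
  have hρ0 : 0 < Real.exp (-s) := Real.exp_pos _
  have hρ1 : Real.exp (-s) < 1 := by rw [Real.exp_lt_one_iff]; linarith
  have hmain := abs_series p N hp H ζ hζ (Real.exp (-s)) hρ0.le hρ1
  -- lower bound of the absolute series
  have hx : ‖xs om w0 s‖ = Real.exp (-s) := xs_norm om w0 s homn w0_re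
  have hx1 : ‖xs om w0 s‖ < 1 := by rw [hx]; exact hρ1
  have hl1 : ‖F (xs om w0 s)‖ ≤ ∑' n, |((a n : ℤ) : ℝ)| * Real.exp (-s) ^ n := by
    rw [F]
    refine (norm_tsum_le_tsum_norm (a_summable _ hx1)).trans (le_of_eq ?_)
    refine tsum_congr fun n => ?_
    rw [norm_mul, norm_pow, hx, Complex.norm_intCast]
  rw [F_norm _ hx1] at hl1
  have hl2 : Real.exp ((A0 + 2 / 300) / s) ≤ Real.exp (T (xs om w0 s)).re := by
    apply Real.exp_le_exp.mpr
    rw [div_le_iff₀ hs0]; linarith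
  -- upper bound
  have hu1 : ∀ j ∈ range p, ‖F (ζ ^ j * (Real.exp (-s) : ℝ))‖ ≤ Real.exp ((A0 + 1 / 300) / s) := by
    intro j hj
    have h5 : (ζ ^ j * ((Real.exp (-s) : ℝ) : ℂ)) = xs (ζ ^ j) 1 s := by
      rw [xs, Complex.ofReal_exp]; push_cast; ring_nf
    have h6 : ‖xs (ζ ^ j) 1 s‖ < 1 := by
      rw [xs_norm _ _ _ (by rw [norm_pow, hζn, one_pow]) (by simp)]; exact hρ1
    rw [h5, F_norm _ h6]
    apply Real.exp_le_exp.mpr
    rw [le_div_iff₀ hs0]
    have := h1 j hj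
    linarith
  have hu2 : ∑ j ∈ range p, ‖F (ζ ^ j * (Real.exp (-s) : ℝ))‖ ≤ p * Real.exp ((A0 + 1 / 300) / s) := by
    calc _ ≤ ∑ j ∈ range p, Real.exp ((A0 + 1 / 300) / s) := Finset.sum_le_sum hu1
      _ = _ := by rw [Finset.sum_const, card_range, nsmul_eq_mul]
  have hexp1 : 1 ≤ Real.exp ((A0 + 1 / 300) / s) := Real.one_le_exp (by positivity)
  have hfin : Real.exp ((A0 + 2 / 300) / s) ≤ (K + p) * Real.exp ((A0 + 1 / 300) / s) := by
    have : K ≤ K * Real.exp ((A0 + 1 / 300) / s) := le_mul_of_one_le_right hK0 hexp1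
    linarith
  have hsplit : Real.exp ((A0 + 2 / 300) / s) =
      Real.exp (1 / 300 / s) * Real.exp ((A0 + 1 / 300) / s) := by
    rw [← Real.exp_add]; congr 1; field_simp; ring
  rw [hsplit] at hfin
  have h7 : Real.exp (1 / 300 / s) ≤ K + p := le_of_mul_le_mul_right hfin (Real.exp_pos _)
  have h8 := Real.add_one_le_exp (1 / 300 / s)
  linarith

/-- For `A = {1,4,7,…}` the sequence `sign f_{A,n}(-1)` is not eventually periodic. -/
theorem result : ¬ ∃ p : ℕ, 1 ≤ p ∧ ∃ N : ℕ, ∀ n : ℕ, N ≤ n →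
    Int.sign ((partPoly {a | ∃ m : ℕ, a = 3 * m + 1} (n + p)).eval (-1)) =
      Int.sign ((partPoly {a | ∃ m : ℕ, a = 3 * m + 1} n).eval (-1)) := by
  rintro ⟨p, hp, N, H⟩
  exact not_periodic p N hp fun n hn => H n hn

end Pool.Agent.Results.MP_5217bf_nt.NotPeriodic
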